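import Pool.Agent.P.MP_328b17_nt.Rel

open Polynomial

namespace Pool.Agent.Results.MP_328b17_nt.TrueConstant

/-- The indeterminate `q`, as a rational function over `ℚ`. -/
noncomputable def q : RatFunc ℚ := RatFunc.X

/-- The `q`-integer `[m] = (1 - q^m)/(1 - q)` for an integer `m`. -/
noncomputable def qInt (m : ℤ) : RatFunc ℚ := (1 - q ^ m) / (1 - q)

/-- The shifted factorial `(a; b)_k = (1 - a)(1 - a b) ... (1 - a b^(k-1))`. -/
noncomputable def qPoch (a b : RatFunc ℚ) (k : ℕ) : RatFunc ℚ :=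
  ∏ i ∈ Finset.range k, (1 - a * b ^ i)

/-- The sum `S_p(q)`. -/
noncomputable def S (p : ℕ) : RatFunc ℚ :=
  ∑ j ∈ Finset.range p,
    qInt (2 * ((p : ℤ) - 1) * (j : ℤ) - 1) *
      (qPoch q⁻¹ (q ^ (p - 1)) j / qPoch (q ^ (p - 1)) (q ^ (p - 1)) j) ^ (2 * (p - 1)) *
      q ^ (j * (p - 1) ^ 2)

/-- Congruence of rational functions modulo a polynomial `P`. -/
def Cong (P : ℚ[X]) (x y : RatFunc ℚ) : Prop :=
  ∃ A B C D : ℚ[X], B ≠ 0 ∧ D ≠ 0 ∧ IsCoprime B P ∧ IsCoprime D P ∧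
    x = algebraMap ℚ[X] (RatFunc ℚ) A / algebraMap ℚ[X] (RatFunc ℚ) B ∧
    y = algebraMap ℚ[X] (RatFunc ℚ) C / algebraMap ℚ[X] (RatFunc ℚ) D ∧
    Polynomial.toLaurent P ∣ Polynomial.toLaurent (A * D - B * C)

section Proof

open Pool.Agent.P.MP_328b17_nt Finset

lemma inj : Function.Injective (algebraMap ℚ[X] (RatFunc ℚ)) :=
  IsFractionRing.injective ℚ[X] (RatFunc ℚ)

lemma fX : algebraMap ℚ[X] (RatFunc ℚ) X = q := by simp [q]

lemma q_ne : q ≠ 0 := RatFunc.X_ne_zero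

lemma q_pow_inj {a b : ℕ} (h : q ^ a = q ^ b) : a = b := by
  rw [← fX, ← map_pow, ← map_pow] at h
  have := congrArg natDegree (inj h)
  simpa using this

lemma q_zpow {e : ℤ} (he : e ≠ 0) : 1 - q ^ e ≠ 0 := by
  intro h
  have h1 : q ^ e = 1 := by linear_combination -h
  rcases e with k | k
  · have : q ^ k = q ^ 0 := by simpa using h1
    have := q_pow_inj this
    subst this
    exact he rfl
  · rw [zpow_negSucc, inv_eq_one] at h1
    have : q ^ (k + 1) = q ^ 0 := by simpa using h1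
    have := q_pow_inj this
    omega

lemma unit_iff (P B : ℚ[X]) : IsUnit (AdjoinRoot.mk P B) ↔ IsCoprime B P := by
  constructor
  · intro h
    obtain ⟨y, hy⟩ := h.exists_left_inv
    obtain ⟨u, rfl⟩ := AdjoinRoot.mk_surjective y
    have : AdjoinRoot.mk P (u * B - 1) = 0 := by rw [map_sub, map_mul, hy, map_one, sub_self]
    obtain ⟨v, hv⟩ := AdjoinRoot.mk_eq_zero.1 this
    exact ⟨u, -v, by linear_combination hv⟩
  · rintro ⟨u, v, h⟩
    have := congrArg (AdjoinRoot.mk P) h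
    simp only [map_add, map_mul, AdjoinRoot.mk_self, mul_zero, add_zero, map_one] at this
    exact IsUnit.of_mul_eq_one_right _ this

lemma coprime_cyc {n e : ℕ} (hn : 0 < n) (he : ¬ n ∣ e) :
    IsCoprime (1 - X ^ e : ℚ[X]) (cyclotomic n ℚ) := by
  refine ((cyclotomic.irreducible_rat hn).coprime_iff_not_dvd.2 ?_).symm
  intro hd
  have hζ := Complex.isPrimitiveRoot_exp n hn.ne'
  have h0 : aeval (Complex.exp (2 * Real.pi * Complex.I / n)) (cyclotomic n ℚ) = 0 := by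
    rw [cyclotomic_eq_minpoly_rat hζ hn]; exact minpoly.aeval _ _
  have h1 := aeval_eq_zero_of_dvd_aeval_eq_zero hd h0
  simp only [map_sub, map_one, map_pow, aeval_X] at h1
  exact he ((hζ.pow_eq_one_iff_dvd e).1 (by linear_combination -h1))

lemma cong_iff {P : ℚ[X]} [Nontrivial (AdjoinRoot P)] (hX : IsCoprime X P) {x y : RatFunc ℚ}
    {x' y' : AdjoinRoot P}
    (hx : Rel (algebraMap ℚ[X] (RatFunc ℚ)) (AdjoinRoot.mk P) x x')
    (hy : Rel (algebraMap ℚ[X] (RatFunc ℚ)) (AdjoinRoot.mk P) y y') :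
    Cong P x y ↔ x' = y' := by
  constructor
  · rintro ⟨A, B, C, D, hB, hD, cB, cD, h1, h2, hdvd⟩
    have hB' : algebraMap ℚ[X] (RatFunc ℚ) B ≠ 0 := fun h => hB (inj (by simpa using h))
    have hD' : algebraMap ℚ[X] (RatFunc ℚ) D ≠ 0 := fun h => hD (inj (by simpa using h))
    obtain ⟨g, hg⟩ := hdvd
    obtain ⟨n, g', hg'⟩ := LaurentPolynomial.exists_T_pow g
    have h3 : P ∣ (A * D - B * C) * X ^ n := by
      refine ⟨g', ?_⟩
      apply Polynomial.toLaurent_injective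
      rw [map_mul, map_mul, hg, hg', Polynomial.toLaurent_X_pow, mul_assoc]
    have h4 : P ∣ A * D - B * C := (hX.symm.pow_right).dvd_of_dvd_mul_right h3
    have h5 := AdjoinRoot.mk_eq_zero.2 h4
    have uB := (unit_iff P B).2 cB
    have uD := (unit_iff P D).2 cD
    have r1 : Rel (algebraMap ℚ[X] (RatFunc ℚ)) (AdjoinRoot.mk P) x
        (AdjoinRoot.mk P A * Ring.inverse (AdjoinRoot.mk P B)) :=
      ⟨A, B, uB, by rw [h1]; field_simp, Ring.inverse_mul_cancel_right _ _ uB⟩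
    have r2 : Rel (algebraMap ℚ[X] (RatFunc ℚ)) (AdjoinRoot.mk P) y
        (AdjoinRoot.mk P C * Ring.inverse (AdjoinRoot.mk P D)) :=
      ⟨C, D, uD, by rw [h2]; field_simp, Ring.inverse_mul_cancel_right _ _ uD⟩
    rw [Rel.func inj hx r1, Rel.func inj hy r2]
    have i1 := Ring.mul_inverse_cancel _ uB
    have i2 := Ring.mul_inverse_cancel _ uD
    simp only [map_sub, map_mul] at h5
    generalize Ring.inverse (AdjoinRoot.mk P B) = b at i1 ⊢
    generalize Ring.inverse (AdjoinRoot.mk P D) = d at i2 ⊢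
    linear_combination b * d * h5 - AdjoinRoot.mk P A * b * i2 + AdjoinRoot.mk P C * d * i1
  · rintro rfl
    obtain ⟨A, B, uB, h1, h2⟩ := hx
    obtain ⟨C, D, uD, h3, h4⟩ := hy
    have hB : B ≠ 0 := by rintro rfl; simp at uB
    have hD : D ≠ 0 := by rintro rfl; simp at uD
    have hB' : algebraMap ℚ[X] (RatFunc ℚ) B ≠ 0 := fun h => hB (inj (by simpa using h))
    have hD' : algebraMap ℚ[X] (RatFunc ℚ) D ≠ 0 := fun h => hD (inj (by simpa using h))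
    refine ⟨A, B, C, D, hB, hD, (unit_iff P B).1 uB, (unit_iff P D).1 uD,
      eq_div_of_mul_eq hB' h1, eq_div_of_mul_eq hD' h3, map_dvd _ ?_⟩
    apply AdjoinRoot.mk_eq_zero.1
    simp only [map_sub, map_mul]
    rw [← h2, ← h4]; ring

lemma z4_eta {R : Type*} [CommRing R] (η : R) (h : η ^ 5 = 0) :
    (η - 6 * η ^ 2 + 48 * η ^ 3 - 432 * η ^ 4) ^ 4 = η ^ 4 := by grind

lemma S_eq (d : ℕ) : S (d + 1) = Ring.inverse (1 - q) *
    ∑ k ∈ range (d + 1), t0 (q ^ d) (q ^ d * (q ^ (d + 1)) ^ (-1 : ℤ)) d k := by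
  have ha : q ^ d * (q ^ (d + 1)) ^ (-1 : ℤ) = q⁻¹ := by
    have := q_ne
    rw [zpow_neg, zpow_one, pow_succ]; field_simp
  rw [S, mul_sum, ha]
  refine sum_congr rfl fun k _ => ?_
  have e1 : q ^ (2 * (((d + 1 : ℕ) : ℤ) - 1) * (k : ℤ) - 1) = q⁻¹ * (q ^ d) ^ (2 * k) := by
    have : (2 * (((d + 1 : ℕ) : ℤ) - 1) * (k : ℤ) - 1) = ((d * (2 * k) : ℕ) : ℤ) - 1 := by
      push_cast; ring
    rw [this, zpow_sub₀ q_ne, zpow_natCast, zpow_one, pow_mul, div_eq_inv_mul]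
  have e2 : q ^ (k * d ^ 2) = ((q ^ d) ^ d) ^ k := by
    rw [← pow_mul, ← pow_mul]; congr 1; ring
  rw [qInt, e1, Nat.add_sub_cancel, e2, t0]
  simp only [Ring.inverse_eq_inv', div_eq_mul_inv, qPoch, poch]
  ring

theorem value (d : ℕ) (hd : 3 ≤ d) [Nontrivial (AdjoinRoot (cyclotomic (d + 1) ℚ ^ 5))] :
    ∃ y, Rel (algebraMap ℚ[X] (RatFunc ℚ)) (AdjoinRoot.mk (cyclotomic (d + 1) ℚ ^ 5))
      (S (d + 1)) y ∧
      y * AdjoinRoot.mk _ ((1 - X) ^ 2) = AdjoinRoot.mk _ ((1 - X ^ (d + 1)) ^ 4 *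
        C ((d : ℚ) * (d - 1) ^ 2 * (2 * d - 1) * ((d + 1) ^ 2 - 1) / 72)) := by
  set P := cyclotomic (d + 1) ℚ ^ 5 with hP
  set g := AdjoinRoot.mk P with hg
  have hun (e : ℕ) (he : ¬ (d + 1) ∣ e) : IsUnit (1 - g X ^ e) := by
    have := (unit_iff P _).2 ((coprime_cyc (Nat.succ_pos d) he).pow_right (n := 5))
    rwa [map_sub, map_one, map_pow] at this
  have hq : ∀ m : ℕ, m ≠ 0 → IsUnit (m : AdjoinRoot P) := fun m hm => by
    have : IsUnit (m : ℚ) := IsUnit.mk0 _ (by exact_mod_cast hm)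
    simpa using this.map (algebraMap ℚ (AdjoinRoot P))
  have hε : (g X ^ (d + 1) - 1) ^ 5 = 0 := by
    have : g ((X ^ (d + 1) - 1) ^ 5) = 0 :=
      AdjoinRoot.mk_eq_zero.2 (pow_dvd_pow_of_dvd (cyclotomic.dvd_X_pow_sub_one _ _) 5)
    rwa [map_pow, map_sub, map_pow, map_one] at this
  obtain ⟨s, hs⟩ : ∃ s : AdjoinRoot P, 12 * s = 1 := by
    have := (hq 12 (by omega)).exists_right_inv
    simpa using this
  set η := s * (g X ^ (d + 1) - 1) with hη
  have hη5 : η ^ 5 = 0 := by rw [hη, mul_pow, hε, mul_zero]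
  set z := η - 6 * η ^ 2 + 48 * η ^ 3 - 432 * η ^ 4 with hzdef
  have hz : z ^ 5 = 0 := by
    have : z = η * (1 - 6 * η + 48 * η ^ 2 - 432 * η ^ 3) := by rw [hzdef]; ring
    rw [this, mul_pow, hη5, zero_mul]
  have hz4 : z ^ 4 = η ^ 4 := z4_eta η hη5
  have hw : ex z 2 = g X ^ (d + 1) := by
    rw [hzdef, exi η hη5, hη]; linear_combination (g X ^ (d + 1) - 1) * hs
  have hXu : IsUnit (g X) := by
    have h1 : ex z 2 * ex z (-2) = 1 := by
      rw [← ex_add hz, add_neg_cancel, ex_zero]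
    rw [hw, pow_succ', mul_assoc] at h1
    exact IsUnit.of_mul_eq_one _ h1
  have rq : Rel (algebraMap ℚ[X] (RatFunc ℚ)) g q (g X) := fX ▸ Rel.alg X
  have rW : Rel (algebraMap ℚ[X] (RatFunc ℚ)) g (q ^ (d + 1)) (ex z 2) := hw ▸ rq.pow _
  have hU : ∀ i, i < d → IsUnit (1 - (g X ^ d) ^ (i + 1)) := fun i hi => by
    rw [← pow_mul]
    refine hun _ fun h => ?_
    have hc : Nat.Coprime (d + 1) d := by simp
    have := Nat.le_of_dvd (by omega) (hc.dvd_of_dvd_mul_left h)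
    omega
  have hn : (g X ^ d) ^ (d + 1) = ex z (2 * d) := by
    rw [← pow_mul, mul_comm d, pow_mul, ← hw, ex_pow hz, mul_comm]
  have hQ0 : q ^ d ≠ 0 := pow_ne_zero _ q_ne
  have hW0 : q ^ (d + 1) ≠ 0 := pow_ne_zero _ q_ne
  have hnK : (q ^ d) ^ (d + 1) = (q ^ (d + 1)) ^ d := by rw [← pow_mul, ← pow_mul, mul_comm]
  have hne (m : ℤ) (hm : ∀ i : ℕ, (d : ℤ) * (i + 1) ≠ (d + 1) * m) (i : ℕ) :
      1 - q ^ d * (q ^ (d + 1)) ^ (-m) * (q ^ d) ^ i ≠ 0 := by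
    have : q ^ d * (q ^ (d + 1)) ^ (-m) * (q ^ d) ^ i =
        q ^ ((d : ℤ) * (i + 1) - (d + 1) * m) := by
      rw [← pow_mul, ← zpow_natCast q (d + 1), ← zpow_mul, ← zpow_natCast q d,
        ← zpow_natCast q (d * i), ← zpow_add₀ q_ne, ← zpow_add₀ q_ne]
      congr 1; push_cast; ring
    rw [this]
    exact q_zpow (sub_ne_zero.2 (hm i))
  have hd' : (3 : ℤ) ≤ d := by exact_mod_cast hd
  have n0 := hne 0 fun i => by
    have : (0 : ℤ) ≤ i := Int.natCast_nonneg i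
    nlinarith
  have n1 := hne 1 fun i => by
    rcases i with _ | i
    · simp
    · have : (0 : ℤ) ≤ i := Int.natCast_nonneg i
      push_cast; nlinarith
  have n2 := hne 2 fun i => by
    rcases i with _ | _ | i
    · simp; omega
    · push_cast; omega
    · have : (0 : ℤ) ≤ i := Int.natCast_nonneg i
      push_cast; nlinarith
  have nm := hne (-1) fun i => by
    have : (0 : ℤ) ≤ i := Int.natCast_nonneg i
    nlinarith
  have n0' : ∀ i, 1 - q ^ d * (q ^ d) ^ i ≠ 0 := by simpa using n0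
  have HH (m m' : ℤ) (hm) (hm') := H_inst (g := g) inj hQ0 hW0 hnK m m' n0' n1 hm hm' hz
    (rq.pow d) (hXu.pow d) rW hU
  have hmain := main_trunc hz hq (Ring.mul_inverse_cancel _ (hXu.pow d)) (by omega) hn hU
    (HH 1 0 n1 n0 _ _ (by norm_num) (by norm_num)) (HH 1 1 n1 n1 _ _ (by norm_num) (by norm_num))
    (HH 0 2 n0 n2 _ _ (by norm_num) (by norm_num)) (HH 0 0 n0 n0 _ _ (by norm_num) (by norm_num))
    (HH 1 (-1) n1 nm _ _ (by norm_num) (by norm_num))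
  have hu1 : IsUnit (1 - g X) := by simpa using hun 1 (by simp; omega)
  have hud : IsUnit (1 - (g X ^ d) ^ d) := by
    have := hU (d - 1) (by omega)
    rwa [show d - 1 + 1 = d by omega] at this
  have hdd : (g X ^ d) ^ d = g X * ex z (2 * (d - 1)) := by
    obtain ⟨e, rfl⟩ : ∃ e, d = e + 1 := ⟨d - 1, by omega⟩
    have : ex z (2 * (((e + 1 : ℕ) : AdjoinRoot P) - 1)) = ex z 2 ^ e := by
      rw [ex_pow hz]; congr 1; push_cast; ring
    rw [this, hw, ← pow_mul, ← pow_mul, ← pow_succ']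
    congr 1; ring
  have hmain2 := drop_unit hz (u0 := 1 - g X) hud
    (g X * (6 * (2 * (d - 1)) + 18 * (2 * (d - 1)) ^ 2 * z + 36 * (2 * (d - 1)) ^ 3 * z ^ 2 +
      54 * (2 * (d - 1)) ^ 4 * z ^ 3)) (by rw [hdd]; unfold ex; ring) hmain
  refine ⟨Ring.inverse (1 - g X) *
    ∑ k ∈ range (d + 1), t0 (g X ^ d) (g X ^ d * ex z (-2)) d k, ?_, ?_⟩
  · rw [S_eq d]
    refine (Rel.inv inj (Rel.one.sub rq) hu1).mul (Rel.sum _ fun k hk => ?_)
    have ra := (rq.pow d).mul (rW.zpow_ex inj hz (-1))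
    have : (2 * ((-1 : ℤ) : AdjoinRoot P)) = -2 := by push_cast; ring
    rw [this] at ra
    refine Rel.t0 inj (rq.pow d) ra d k ?_
    have u1 := poch_unit hz 0 k fun i hi => hU i (by omega)
    rwa [ex_zero, mul_one] at u1
  · have hi := Ring.inverse_mul_cancel _ hu1
    have h72 : IsUnit (72 : AdjoinRoot P) := by simpa using hq 72 (by omega)
    have hc : 72 * g (C ((d : ℚ) * (d - 1) ^ 2 * (2 * d - 1) * ((d + 1) ^ 2 - 1) / 72)) =
        d * (d - 1) ^ 2 * (2 * d - 1) * ((d + 1) ^ 2 - 1) := by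
      have h1 : (72 : AdjoinRoot P) = g (C 72) := by
        rw [show (C 72 : ℚ[X]) = 72 from rfl, map_ofNat]
      rw [h1, ← map_mul, ← C_mul, mul_div_cancel₀ _ (by norm_num)]
      simp [map_ofNat]
    apply h72.mul_left_cancel
    simp only [map_mul, map_pow, map_sub, map_one]
    generalize g (C ((d : ℚ) * (d - 1) ^ 2 * (2 * d - 1) * ((d + 1) ^ 2 - 1) / 72)) = c at hc ⊢
    generalize ∑ k ∈ range (d + 1), t0 (g X ^ d) (g X ^ d * ex z (-2)) d k = T at hmain2 ⊢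
    generalize Ring.inverse (1 - g X) = w at hi ⊢
    have h4 : (1 - g X ^ (d + 1)) ^ 4 = 20736 * z ^ 4 := by
      have : 1 - g X ^ (d + 1) = -12 * η := by
        rw [hη]; linear_combination (g X ^ (d + 1) - 1) * hs
      rw [this, hz4]; ring
    rw [h4]
    linear_combination 72 * T * (1 - g X) * hi + 72 * hmain2 - 20736 * z ^ 4 * hc

end Proof

theorem result (p : ℕ) (hp : p.Prime) (h3 : 3 < p) (c : ℚ) :
    Cong (cyclotomic p ℚ ^ 5) (S p)
      (RatFunc.C c * (1 - q) ^ 2 * algebraMap ℚ[X] (RatFunc ℚ) (cyclotomic p ℚ) ^ 4) ↔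
    c = ((p : ℚ) - 1) ^ 2 * (p + 1) * (2 * p - 3) * (p - 2) ^ 2 / 72 := by
  obtain ⟨d, rfl⟩ : ∃ d, p = d + 1 := ⟨p - 1, by omega⟩
  have hirr := cyclotomic.irreducible_rat (Nat.succ_pos d)
  have : Nontrivial (AdjoinRoot (cyclotomic (d + 1) ℚ ^ 5)) := by
    apply AdjoinRoot.nontrivial
    intro h
    exact hirr.not_isUnit
      ((isUnit_pow_iff (by norm_num)).1 (isUnit_iff_degree_eq_zero.2 h))
  obtain ⟨y, hy, hy2⟩ := value d (by omega)
  have hcyc : cyclotomic (d + 1) ℚ * (X - 1) = X ^ (d + 1) - 1 := by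
    have : Fact (d + 1).Prime := ⟨hp⟩
    exact cyclotomic_prime_mul_X_sub_one ℚ (d + 1)
  have c1 : IsCoprime (1 - X : ℚ[X]) (cyclotomic (d + 1) ℚ) := by
    simpa using coprime_cyc (n := d + 1) (e := 1) (Nat.succ_pos d) (by simp; omega)
  have cX : IsCoprime (X : ℚ[X]) (cyclotomic (d + 1) ℚ) :=
    ⟨X ^ d, 1 - X, by linear_combination -hcyc⟩
  have r2 := P.MP_328b17_nt.Rel.alg (f := algebraMap ℚ[X] (RatFunc ℚ))
    (g := AdjoinRoot.mk (cyclotomic (d + 1) ℚ ^ 5))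
    (C c * (1 - X) ^ 2 * cyclotomic (d + 1) ℚ ^ 4)
  have e1 : algebraMap ℚ[X] (RatFunc ℚ) (C c * (1 - X) ^ 2 * cyclotomic (d + 1) ℚ ^ 4) =
      RatFunc.C c * (1 - q) ^ 2 * algebraMap ℚ[X] (RatFunc ℚ) (cyclotomic (d + 1) ℚ) ^ 4 := by
    simp [q]
  rw [e1] at r2
  rw [cong_iff cX.pow_right hy r2]
  have u1 := (unit_iff (cyclotomic (d + 1) ℚ ^ 5) _).2 ((c1.pow_right (n := 5)).pow_left (m := 2))
  have e2 : (((d + 1 : ℕ) : ℚ) - 1) ^ 2 * (((d + 1 : ℕ) : ℚ) + 1) * (2 * ((d + 1 : ℕ) : ℚ) - 3) *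
      (((d + 1 : ℕ) : ℚ) - 2) ^ 2 / 72 =
      (d : ℚ) * (d - 1) ^ 2 * (2 * d - 1) * ((d + 1) ^ 2 - 1) / 72 := by push_cast; ring
  rw [e2, ← u1.mul_left_inj, hy2, ← map_mul, AdjoinRoot.mk_eq_mk]
  generalize (d : ℚ) * (d - 1) ^ 2 * (2 * d - 1) * ((d + 1) ^ 2 - 1) / 72 = c0
  have e3 : (1 - X ^ (d + 1)) ^ 4 * C c0 - C c * (1 - X) ^ 2 * cyclotomic (d + 1) ℚ ^ 4 *
      (1 - X) ^ 2 = cyclotomic (d + 1) ℚ ^ 4 * (C (c0 - c) * (1 - X) ^ 4) := by
    have : (1 - X ^ (d + 1) : ℚ[X]) = cyclotomic (d + 1) ℚ * (1 - X) := by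
      linear_combination hcyc
    rw [this, C_sub]; ring
  rw [e3, pow_succ, mul_dvd_mul_iff_left (pow_ne_zero _ hirr.ne_zero)]
  constructor
  · intro h
    by_contra hne
    have h1 := (c1.symm.pow_right (n := 4)).dvd_of_dvd_mul_right h
    exact hirr.not_isUnit (isUnit_of_dvd_unit h1
      (isUnit_C.2 (IsUnit.mk0 _ (sub_ne_zero.2 (Ne.symm hne)))))
  · rintro rfl; simp

end Pool.Agent.Results.MP_328b17_nt.TrueConstant
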